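import Mathlib
import Pool.Agent.H4R3.BNd
import Pool.Agent.H4R3.BNe

set_option autoImplicit false

/-!
Disproof of the boundedness of the pairs `(C², p_a(C))` of negative curves on blow-ups at general
points.

Dictionary. Let `T` be a finite set of points of the projective plane and `X_T` the blow-up of the
plane at `T`. The integral curves on `X_T` are the exceptional curves over the points of `T` and the
strict transforms of the integral plane curves `F = 0`. If `F` has degree `d` and multiplicity `m_p`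
at `p`, its strict transform `C` has `C² = d² - ∑ m_p²` and
`p_a(C) = (d-1)(d-2)/2 - ∑ m_p (m_p - 1)/2` (sums over `p ∈ T`).

Take `Y = X_S` for the set `S` below. The complement of the exceptional curves of `Y` is an open dense
subset, identified with the complement of `S` in the plane, so every nonempty Zariski-open subset of
`Y^r` contains a tuple of `r` distinct points `x₁, …, x_r` of the plane outside `S`. The blow-up of `Y`
at such a tuple is `X_T` with `T = S ∪ {x₁, …, x_r}`. The theorem says that for every finite `T ⊇ S`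
and every `N` there is an integral plane curve whose strict transform `C` on `X_T` has `C² < 0` and
moreover `C² < -N` or `p_a(C) > N`. Strict transforms of plane curves are not exceptional curves, so
this is the negated form of the question for `Y` and every `r ≥ 1`.

Construction. `S` consists of the 36 points `(±s : ±s³ : 1)`, `s = 1, …, 9`, the preimages of the nine
points `(s² : s⁶ : 1)` of the cuspidal cubic `x³ = y z²` under the map `(x : y : z) ↦ (x² : y² : z²)`.
On the blow-up of the plane at the nine points there are curves of self-intersection `-1` (found by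
counting conditions) whose degree is unbounded; a component of the preimage of such a curve has negative
self-intersection and large intersection number with the canonical class.
-/

open MvPolynomial

namespace Pool.Agent.Results.MP_008bba_ag.UnboundedPairs

open scoped LinearAlgebra.Projectivization
open Pool.Agent.H4R3.BN

/-- The homogeneous ideal in `K[x₀, x₁, x₂]` of a point of the projective plane: it is generated by
the minors `pᵢ xⱼ - pⱼ xᵢ`. -/
noncomputable def pointIdeal {K : Type*} [Field K] (p : ℙ K (Fin 3 → K)) :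
    Ideal (MvPolynomial (Fin 3) K) :=
  Ideal.span (Set.range fun ij : Fin 3 × Fin 3 =>
    C (p.rep ij.1) * X ij.2 - C (p.rep ij.2) * X ij.1)

/-- An integral curve in the projective plane: an irreducible form of some degree. -/
structure PlaneCurve (K : Type*) [Field K] where
  /-- the degree -/
  deg : ℕ
  /-- the equation -/
  form : MvPolynomial (Fin 3) K
  homogeneous : form.IsHomogeneous deg
  irreducible : Irreducible form

/-- The multiplicity of a plane curve at a point `p`: the largest `m` such that the equation lies in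
the `m`-th power of the homogeneous ideal of `p`. -/
noncomputable def PlaneCurve.mult {K : Type*} [Field K] (C : PlaneCurve K)
    (p : ℙ K (Fin 3 → K)) : ℕ :=
  sSup {m | C.form ∈ pointIdeal p ^ m}

/-- The self-intersection of the strict transform of the plane curve `C` on the blow-up of the plane
at the finite set `T`. -/
noncomputable def PlaneCurve.selfInt {K : Type*} [Field K] (C : PlaneCurve K)
    (T : Finset (ℙ K (Fin 3 → K))) : ℤ :=
  (C.deg : ℤ) ^ 2 - ∑ p ∈ T, (C.mult p : ℤ) ^ 2

/-- The arithmetic genus of the strict transform of the plane curve `C` on the blow-up of the plane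
at the finite set `T`. -/
noncomputable def PlaneCurve.arithGenus {K : Type*} [Field K] (C : PlaneCurve K)
    (T : Finset (ℙ K (Fin 3 → K))) : ℤ :=
  ((C.deg : ℤ) - 1) * ((C.deg : ℤ) - 2) / 2 - ∑ p ∈ T, (C.mult p : ℤ) * ((C.mult p : ℤ) - 1) / 2

section Aux

variable {K : Type*} [Field K]

lemma pointIdeal_mk (v : Fin 3 → K) (hv : v ≠ 0) :
    pointIdeal (Projectivization.mk K v hv) = vI v := by
  obtain ⟨a, ha⟩ := Projectivization.exists_smul_eq_mk_rep K v hv
  have h1 : pointIdeal (Projectivization.mk K v hv) = vI (Projectivization.mk K v hv).rep := rfl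
  rw [h1, ← ha]
  exact vI_smul a.ne_zero v

lemma mult_mk (C : PlaneCurve K) (u v : K) (h : (![u, v, 1] : Fin 3 → K) ≠ 0) :
    C.mult (Projectivization.mk K ![u, v, 1] h) = od u v C.form := by
  unfold PlaneCurve.mult
  rw [pointIdeal_mk]
  have : {m | C.form ∈ vI ![u, v, 1] ^ m} = Set.Iic (od u v C.form) := by
    ext m
    exact le_od_iff u v C.irreducible.ne_zero m
  rw [this, csSup_Iic]

lemma vec_ne (u v : K) : (![u, v, 1] : Fin 3 → K) ≠ 0 := by
  intro h
  have := congrFun h 2
  simp at this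

/-- the sign attached to a boolean -/
def sgn (K : Type*) [Field K] (a : Bool) : K := if a then 1 else -1

/-- the 36 points -/
noncomputable def pt (K : Type*) [Field K] (x : Fin 9 × Bool × Bool) : ℙ K (Fin 3 → K) :=
  Projectivization.mk K
    ![sgn K x.2.1 * (((x.1 : ℕ) + 1 : ℕ) : K), sgn K x.2.2 * ((((x.1 : ℕ) + 1) ^ 3 : ℕ) : K), 1]
    (vec_ne _ _)

lemma sgn_sq (a : Bool) : sgn K a ^ 2 = 1 := by
  cases a <;> simp [sgn]

lemma sgn_inj [CharZero K] {a b : Bool} {n : ℕ} (hn : n ≠ 0)
    (h : sgn K a * (n : K) = sgn K b * (n : K)) : a = b := by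
  have hn' : (n : K) ≠ 0 := Nat.cast_ne_zero.2 hn
  have h1 := mul_right_cancel₀ hn' h
  have h2 : (2 : K) ≠ 0 := two_ne_zero
  cases a <;> cases b
  · rfl
  · exfalso
    simp only [sgn] at h1
    apply h2
    simp at h1
    linear_combination -h1
  · exfalso
    simp only [sgn] at h1
    apply h2
    simp at h1
    linear_combination h1
  · rfl

lemma pt_inj [CharZero K] : Function.Injective (pt K) := by
  rintro ⟨i, a, b⟩ ⟨j, c, d⟩ h
  unfold pt at h
  rw [Projectivization.mk_eq_mk_iff'] at h
  obtain ⟨w, hw⟩ := h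
  have h2 := congrFun hw 2
  have h0 := congrFun hw 0
  have h1 := congrFun hw 1
  simp only [Pi.smul_apply, smul_eq_mul, Matrix.cons_val_zero, Matrix.cons_val_one,
    Matrix.cons_val] at h0 h1 h2
  have hw1 : w = 1 := by simpa using h2
  rw [hw1, one_mul] at h0 h1
  have hsq : (((j : ℕ) + 1 : ℕ) : K) ^ 2 = (((i : ℕ) + 1 : ℕ) : K) ^ 2 := by
    have := congrArg (fun z => z ^ 2) h0
    simp only [mul_pow, sgn_sq, one_mul] at this
    exact this
  have hij : (j : ℕ) + 1 = (i : ℕ) + 1 := by
    have h3 : ((j : ℕ) + 1) ^ 2 = ((i : ℕ) + 1) ^ 2 := by exact_mod_cast hsq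
    exact (Nat.pow_left_injective (n := 2) (by norm_num)) h3
  have hij' : i = j := Fin.ext (by omega)
  subst hij'
  have ha := sgn_inj (K := K) (n := (i : ℕ) + 1) (by omega) h0
  have hb := sgn_inj (K := K) (n := ((i : ℕ) + 1) ^ 3) (by positivity) h1
  rw [ha, hb]

end Aux

theorem result (K : Type*) [Field K] [IsAlgClosed K] [CharZero K] :
    ∃ S : Finset (ℙ K (Fin 3 → K)), ∀ T : Finset (ℙ K (Fin 3 → K)), S ⊆ T →
      ∀ N : ℕ, ∃ C : PlaneCurve K,
        C.selfInt T < 0 ∧ (C.selfInt T < -(N : ℤ) ∨ (N : ℤ) < C.arithGenus T) := by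
  classical
  refine ⟨Finset.univ.image (pt K), fun T hT N => ?_⟩
  obtain ⟨B, b, k, hBh, hBi, hbk, hs1, hs2⟩ := exists_B (K := K) (24 * N + 10)
  have hB0 := hBi.ne_zero
  have hE0 : expand 2 B ≠ 0 := (expand_ne_zero (by norm_num)).2 hB0
  have hEu : ¬ IsUnit (expand 2 B) := by
    intro hu
    have := (isLocalHom_expand (p := 2) (σ := Fin 3) (R := K) (by norm_num)).map_nonunit B hu
    exact hBi.not_isUnit this
  obtain ⟨H, hHi, hHd⟩ := WfDvdMonoid.exists_irreducible_factor hEu hE0
  obtain ⟨h, hHh⟩ : ∃ h, H.IsHomogeneous h := by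
    obtain ⟨H', hH'⟩ := hHd
    have hH'0 : H' ≠ 0 := by rintro rfl; rw [mul_zero] at hH'; exact hE0 hH'
    obtain ⟨a, a', ha, _, _⟩ := Pool.Agent.Helper413.Quad.isHomogeneous_of_mul (f := H) (g := H')
      (mul_ne_zero hHi.ne_zero hH'0) (by rw [← hH']; exact expand_hom hBh)
    exact ⟨a, ha⟩
  obtain ⟨j, hj1, hjd, hjm⟩ := norm_main hBh hBi hHh hHi hHd
  let Q : PlaneCurve K := ⟨h, H, hHh, hHi⟩
  -- multiplicities of `Q` at the 36 points
  have hmu : ∀ i : Fin 9, j * oo B i ≤ Q.mult (pt K (i, true, true)) + Q.mult (pt K (i, false, true))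
      + (Q.mult (pt K (i, true, false)) + Q.mult (pt K (i, false, false))) := by
    intro i
    have h1 := hjm (((i : ℕ) + 1 : ℕ) : K) ((((i : ℕ) + 1) ^ 3 : ℕ) : K)
    have e0 : ((((i : ℕ) + 1 : ℕ) : K)) ^ 2 = tt K i := by unfold tt; push_cast; ring
    have e1 : (((((i : ℕ) + 1) ^ 3 : ℕ) : K)) ^ 2 = tt K i ^ 3 := by unfold tt; push_cast; ring
    rw [e0, e1] at h1
    have m1 : ∀ a c : Bool, Q.mult (pt K (i, a, c)) =
        od (sgn K a * (((i : ℕ) + 1 : ℕ) : K)) (sgn K c * ((((i : ℕ) + 1) ^ 3 : ℕ) : K)) H := by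
      intro a c
      unfold pt
      rw [mult_mk]
    rw [m1, m1, m1, m1]
    have st : sgn K true = 1 := rfl
    have sf : sgn K false = -1 := rfl
    rw [st, sf, one_mul, one_mul, neg_one_mul, neg_one_mul]
    exact h1
  -- sums over the 36 points
  have hsum : ∀ f : ℙ K (Fin 3 → K) → ℕ, ∑ p ∈ Finset.univ.image (pt K), f p
      = ∑ i : Fin 9, (f (pt K (i, true, true)) + f (pt K (i, false, true))
        + (f (pt K (i, true, false)) + f (pt K (i, false, false)))) := by
    intro f
    rw [Finset.sum_image (fun x _ y _ hxy => pt_inj hxy), Fintype.sum_prod_type]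
    apply Finset.sum_congr rfl
    intro i _
    rw [Fintype.sum_prod_type, Fintype.sum_bool, Fintype.sum_bool, Fintype.sum_bool]
    ring
  have hT1 : j * ∑ i, oo B i ≤ ∑ p ∈ T, Q.mult p := by
    calc j * ∑ i, oo B i = ∑ i, j * oo B i := by rw [Finset.mul_sum]
      _ ≤ ∑ p ∈ Finset.univ.image (pt K), Q.mult p := by
        rw [hsum]
        exact Finset.sum_le_sum fun i _ => hmu i
      _ ≤ ∑ p ∈ T, Q.mult p := Finset.sum_le_sum_of_subset hT
  have hT2 : j ^ 2 * ∑ i, oo B i ^ 2 ≤ 4 * ∑ p ∈ T, Q.mult p ^ 2 := by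
    calc j ^ 2 * ∑ i, oo B i ^ 2 = ∑ i, (j * oo B i) ^ 2 := by
          rw [Finset.mul_sum]
          exact Finset.sum_congr rfl fun i _ => by ring
      _ ≤ ∑ i, 4 * (Q.mult (pt K (i, true, true)) ^ 2 + Q.mult (pt K (i, false, true)) ^ 2
        + (Q.mult (pt K (i, true, false)) ^ 2 + Q.mult (pt K (i, false, false)) ^ 2)) := by
        refine Finset.sum_le_sum fun i _ => ?_
        refine (Nat.pow_le_pow_left (hmu i) 2).trans ?_
        generalize Q.mult (pt K (i, true, true)) = x1
        generalize Q.mult (pt K (i, false, true)) = x2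
        generalize Q.mult (pt K (i, true, false)) = x3
        generalize Q.mult (pt K (i, false, false)) = x4
        zify
        nlinarith [sq_nonneg ((x1 : ℤ) - x2), sq_nonneg ((x1 : ℤ) - x3), sq_nonneg ((x1 : ℤ) - x4),
          sq_nonneg ((x2 : ℤ) - x3), sq_nonneg ((x2 : ℤ) - x4), sq_nonneg ((x3 : ℤ) - x4)]
      _ = 4 * ∑ p ∈ Finset.univ.image (pt K), Q.mult p ^ 2 := by
        rw [hsum (fun p => Q.mult p ^ 2), Finset.mul_sum]
      _ ≤ 4 * ∑ p ∈ T, Q.mult p ^ 2 :=
        Nat.mul_le_mul_left _ (Finset.sum_le_sum_of_subset hT)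
  -- the self-intersection
  have h2h : 2 * h = b * j := by
    have : 4 * h = 2 * (b * j) := by rw [hjd]; ring
    omega
  have hSI : 4 * Q.selfInt T ≤ -(1 + 2 * (k : ℤ)) := by
    unfold PlaneCurve.selfInt
    have e1 : (Q.deg : ℤ) = h := rfl
    rw [e1]
    rw [hs2] at hT2
    zify at hT2 h2h hj1
    have e2 : 4 * (h : ℤ) ^ 2 = (j : ℤ) ^ 2 * b ^ 2 := by
      have : (2 * (h : ℤ)) ^ 2 = ((b : ℤ) * j) ^ 2 := by rw [h2h]
      linear_combination this
    have e3 : (1 : ℤ) ≤ (j : ℤ) ^ 2 := by nlinarith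
    have e4 : (0 : ℤ) ≤ 1 + 2 * (k : ℤ) := by positivity
    nlinarith
  have hneg : Q.selfInt T < 0 := by
    have : (0 : ℤ) ≤ (k : ℤ) := by positivity
    linarith
  refine ⟨Q, hneg, ?_⟩
  by_contra hcon
  push Not at hcon
  obtain ⟨hself, hgen⟩ := hcon
  -- the arithmetic genus
  have hG : 2 * Q.arithGenus T = Q.selfInt T - 3 * h + 2 + ∑ p ∈ T, (Q.mult p : ℤ) := by
    unfold PlaneCurve.arithGenus PlaneCurve.selfInt
    have e1 : (Q.deg : ℤ) = h := rfl
    rw [e1, mul_sub, Finset.mul_sum]
    have d1 : 2 * (((h : ℤ) - 1) * ((h : ℤ) - 2) / 2) = ((h : ℤ) - 1) * ((h : ℤ) - 2) := by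
      apply Int.mul_ediv_cancel'
      have : ((h : ℤ) - 1) * ((h : ℤ) - 2) = ((h : ℤ) - 2) * (((h : ℤ) - 2) + 1) := by ring
      rw [this]
      exact (Int.even_mul_succ_self _).two_dvd
    have d2 : ∀ m : ℤ, 2 * (m * (m - 1) / 2) = m * (m - 1) := by
      intro m
      apply Int.mul_ediv_cancel'
      exact (Int.even_mul_pred_self _).two_dvd
    rw [d1]
    simp_rw [d2]
    have : ∀ m : ℤ, m * (m - 1) = m ^ 2 - m := by intro m; ring
    simp_rw [this]
    rw [Finset.sum_sub_distrib]
    ring
  have hTs : ((j : ℤ)) * (3 * b - 1) ≤ ∑ p ∈ T, (Q.mult p : ℤ) := by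
    have e1 : (∑ i, oo B i : ℤ) = 3 * b - 1 := by
      have : ((∑ i, oo B i + 1 : ℕ) : ℤ) = ((3 * b : ℕ) : ℤ) := by rw [hs1]
      push_cast at this
      linarith
    have e2 : ((j * ∑ i, oo B i : ℕ) : ℤ) ≤ ((∑ p ∈ T, Q.mult p : ℕ) : ℤ) := by exact_mod_cast hT1
    push_cast at e2
    rw [e1] at e2
    exact e2
  have hbk' : (b : ℤ) + 3 * k = 3 * (24 * N + 10 + 1) ^ 2 := by exact_mod_cast hbk
  have hkν : 1 + 2 * (k : ℤ) ≤ 4 * N := by linarith
  have hbν : 3 * (b : ℤ) - 2 ≤ 6 * N := by
    have e3 : (2 : ℤ) * h = b * j := by exact_mod_cast h2h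
    have e4 : (1 : ℤ) ≤ j := by exact_mod_cast hj1
    have e5 : (0 : ℤ) ≤ b := by positivity
    have e6 : (j : ℤ) * (3 * b - 2) ≤ 6 * N := by nlinarith
    by_cases hb1 : (3 * (b : ℤ) - 2) ≤ 0
    · have : (0 : ℤ) ≤ 6 * (N : ℤ) := by positivity
      linarith
    · push Not at hb1
      nlinarith
  have hN0 : (0 : ℤ) ≤ N := by positivity
  nlinarith [sq_nonneg ((24 : ℤ) * N + 10)]

end Pool.Agent.Results.MP_008bba_ag.UnboundedPairs
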